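import Mathlib

namespace Pool.Agent.P.MP_361790_al

/-- The product `mul` is anticommutative and satisfies the degree-4 identity of CD algebras. -/
def IsCD {B : Type*} [AddCommGroup B] (mul : B → B → B) : Prop :=
  (∀ x, mul x x = 0) ∧
    ∀ x y a b, mul (mul (mul x y) a) b - mul (mul (mul x y) b) a - mul (mul (mul x a) b) y
      + mul (mul (mul x b) a) y + mul (mul (mul y a) b) x - mul (mul (mul y b) a) x = 0

end Pool.Agent.P.MP_361790_al
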