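import Pool.Agent.P.MP_361790_al.Defs

namespace Pool.Agent.P.MP_361790_al

/-- The five-dimensional algebra with `e0 e1 = e3`, `e3 e2 = e4`. -/
def mul5 (K : Type*) [Field K] : (Fin 5 → K) →ₗ[K] (Fin 5 → K) →ₗ[K] (Fin 5 → K) :=
  LinearMap.mk₂ K (fun x y => ![0, 0, 0, x 0 * y 1 - x 1 * y 0, x 3 * y 2 - x 2 * y 3])
    (by intro x x' y; ext i; fin_cases i <;> simp <;> ring)
    (by intro c x y; ext i; fin_cases i <;> simp <;> ring)
    (by intro x y y'; ext i; fin_cases i <;> simp <;> ring)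
    (by intro c x y; ext i; fin_cases i <;> simp <;> ring)

theorem mul5_apply (K : Type*) [Field K] (x y : Fin 5 → K) :
    mul5 K x y = ![0, 0, 0, x 0 * y 1 - x 1 * y 0, x 3 * y 2 - x 2 * y 3] := rfl

theorem mul5_isCD (K : Type*) [Field K] : IsCD (fun x y => mul5 K x y) := by
  refine ⟨fun x => ?_, fun x y a b => ?_⟩
  · ext i; fin_cases i <;> simp [mul5_apply] <;> ring
  · ext i; fin_cases i <;> simp [mul5_apply]

theorem main.{u, v} (K : Type u) [Field K] (h2 : ringChar K ≠ 2) :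
    ∃ mul : (Fin 5 → K) →ₗ[K] (Fin 5 → K) →ₗ[K] (Fin 5 → K),
      IsCD (fun x y => mul x y) ∧
      ∀ (M : Type v) [AddCommGroup M] [Module K M] (act : (Fin 5 → K) →ₗ[K] M →ₗ[K] M),
        IsCD (fun p q : (Fin 5 → K) × M => (mul p.1 q.1, act p.1 q.2 - act q.1 p.2)) →
        ∃ a : Fin 5 → K, a ≠ 0 ∧ ∀ m : M, act a m = 0 := by
  have h2' : (2 : K) ≠ 0 := Ring.two_ne_zero h2
  refine ⟨mul5 K, mul5_isCD K, fun M _ _ act h => ?_⟩
  set e0 : Fin 5 → K := ![1, 0, 0, 0, 0] with he0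
  set e1 : Fin 5 → K := ![0, 1, 0, 0, 0] with he1
  set e2 : Fin 5 → K := ![0, 0, 1, 0, 0] with he2
  set e3 : Fin 5 → K := ![0, 0, 0, 1, 0] with he3
  set e4 : Fin 5 → K := ![0, 0, 0, 0, 1] with he4
  have m01 : mul5 K e0 e1 = e3 := by ext i; fin_cases i <;> simp [mul5_apply, he0, he1, he3]
  have m10 : mul5 K e1 e0 = -e3 := by ext i; fin_cases i <;> simp [mul5_apply, he0, he1, he3]
  have m02 : mul5 K e0 e2 = 0 := by ext i; fin_cases i <;> simp [mul5_apply, he0, he2]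
  have m20 : mul5 K e2 e0 = 0 := by ext i; fin_cases i <;> simp [mul5_apply, he0, he2]
  have m12 : mul5 K e1 e2 = 0 := by ext i; fin_cases i <;> simp [mul5_apply, he1, he2]
  have m21 : mul5 K e2 e1 = 0 := by ext i; fin_cases i <;> simp [mul5_apply, he1, he2]
  have m32 : mul5 K e3 e2 = e4 := by ext i; fin_cases i <;> simp [mul5_apply, he3, he2, he4]
  refine ⟨e4, ?_, fun m => ?_⟩
  · intro h4
    have := congrFun h4 4
    simp [he4] at this
  · have i1 := congrArg Prod.snd (h.2 (e0, 0) (0, m) (e1, 0) (e2, 0))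
    have i2 := congrArg Prod.snd (h.2 (e1, 0) (0, m) (e0, 0) (e2, 0))
    have i3 := congrArg Prod.snd (h.2 (e2, 0) (0, m) (e0, 0) (e1, 0))
    simp only [Prod.snd_add, Prod.snd_sub, Prod.snd_zero, map_zero, LinearMap.zero_apply, sub_zero,
      zero_sub, map_neg, LinearMap.neg_apply, neg_neg, m01, m10, m02, m20, m12, m21, m32] at i1 i2 i3
    have key : (2 : K) • act e4 m = 0 := by
      rw [two_smul]
      linear_combination (norm := abel) i2 - i1 - i3
    exact (smul_eq_zero.mp key).resolve_left h2'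

end Pool.Agent.P.MP_361790_al
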